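import Pool.Agent.TH796.CB.TB5
import Pool.Agent.W47.LC.EBound

/-!
# The digits of an irrational number in two coprime bases

No irrational number has simple expansions in two coprime bases: for coprime `a, b ≥ 2` and an
irrational `x` (for instance `π` or `e`) the number of digit changes among the first `N` digits in base
`a` plus the number of digit changes among the first `N` digits in base `b` is larger than `T log N` for
every `T` and all large `N`. So for every `T` and all large `N` all but at most one of finitely many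
pairwise coprime bases show at least `T log N` digit changes of `x` among the first `N` digits.

The same is true for the number of failures of any two linear relations between consecutive digits
(for instance of periodicity relations), for the digits of `x` in base `a` and of `y` in base `b` when
`x, y` are irrational and `1, x, y` are linearly dependent over the rational numbers, and for all
expansions with bounded integer digits. More precisely there are at least `M` such places with
`s < n log g ≤ (2 M + 2) s` (`g` the base), for all large `s`.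

Proof: the subspace type theorem of helper547 (`Pool.Agent.H547R3.Dig.merge2`, on the tools of helper393)
is carried over from two primes to two coprime integers `≥ 2`; it shows that the truncations of the two
expansions at the beginning of a long common gap would have to coincide.
-/

set_option autoImplicit false

namespace Pool.Agent.Results.MP_e4e684_nt.CoprimeBases

open Pool.Agent.TH796.CB

/-- the `n`-th digit after the point of `x` in base `g` -/
noncomputable def dig (g : ℕ) (x : ℝ) (n : ℕ) : ℤ := ⌊x * (g : ℝ) ^ n⌋ % g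

/-- number of `1 ≤ n ≤ N` such that the digits at the places `n` and `n + 1` are different -/
noncomputable def changes (g : ℕ) (x : ℝ) (N : ℕ) : ℕ :=
  ((Finset.Icc 1 N).filter (fun n => dig g x (n + 1) ≠ dig g x n)).card

/-- number of `1 ≤ n ≤ N` with `∑_j P_j d_(n+j) ≠ 0`, where `d_n` are the digits of `x` in base `g` and
`P_j` the coefficients of `P` -/
noncomputable def failures (P : Polynomial ℤ) (g : ℕ) (x : ℝ) (N : ℕ) : ℕ :=
  ((Finset.Icc 1 N).filter (fun n => ∑ j ∈ P.support, P.coeff j * dig g x (n + j) ≠ 0)).card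

/-- number of indices `0 ≤ n ≤ v` with `c n ≠ 0` -/
noncomputable def nonzero (c : ℕ → ℤ) (v : ℝ) : ℕ :=
  ((Finset.range (⌊v⌋₊ + 1)).filter (fun n => c n ≠ 0)).card

/-- `e` is irrational -/
theorem irr_e : Irrational (Real.exp 1) := by
  intro ⟨r, hr⟩
  have h1 := Pool.Agent.W47.LC.eBound r.den r.den_pos r.num
  have h2 : (r.den : ℝ) * Real.exp 1 - r.num = 0 := by
    rw [← hr]
    have := Rat.mul_den_eq_num r
    have h3 : (r : ℝ) * r.den = r.num := by exact_mod_cast this
    linarith
  rw [h2, abs_zero, mul_zero] at h1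
  norm_num at h1

theorem failures_eq (P : Polynomial ℤ) (g : ℕ) (x : ℝ) (N : ℕ) :
    failures P g x N = cnt (seq P g x) N := by
  rw [← fails_eq]
  unfold failures fails form
  rw [Nat.floor_natCast]
  rfl

theorem changes_le {g : ℕ} (x : ℝ) (N : ℕ) :
    failures (Polynomial.X - 1) g x N ≤ changes g x N := by
  unfold failures changes
  apply Finset.card_le_card
  intro n hn
  rw [Finset.mem_filter] at hn ⊢
  refine ⟨hn.1, ?_⟩
  intro h
  apply hn.2
  have h1 : ∑ j ∈ (Polynomial.X - 1 : Polynomial ℤ).support,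
      (Polynomial.X - 1 : Polynomial ℤ).coeff j * dig g x (n + j) =
      ∑ j ∈ Finset.range 2, (Polynomial.X - 1 : Polynomial ℤ).coeff j * dig g x (n + j) := by
    apply Finset.sum_subset
    · intro j hj
      rw [Finset.mem_range]
      have h2 := Polynomial.le_natDegree_of_mem_supp j hj
      have h3 : (Polynomial.X - 1 : Polynomial ℤ).natDegree = 1 := by
        rw [← Polynomial.C_1]; exact Polynomial.natDegree_X_sub_C 1
      omega
    · intro j _ hj
      rw [Polynomial.notMem_support_iff.1 hj, zero_mul]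
  rw [h1, Finset.sum_range_succ, Finset.sum_range_one]
  simp [Polynomial.coeff_X, Polynomial.coeff_one, h]

/-- (1) Let `a, b ≥ 2` be coprime, `x = ∑ c_n / a^n` irrational and `y = ∑ e_n / b^n` with bounded integers
`c_n`, `e_n`, and `A x + B y = C` with integers `A, B ≠ 0` and `C`. Then for every `M` and all large real `s`
at least `M` of the numbers `c_n`, `s < n log a ≤ (2 M + 2) s`, and `e_n`, `s < n log b ≤ (2 M + 2) s`, are
different from zero. In particular for every `T` and all large `N` at least `T log N` of the numbers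
`c_0, …, c_N, e_0, …, e_N` are different from zero. (2) Let `x, y` be real, `x` irrational, `A x + B y = C` as
in (1), and let `P`, `Q` be integer polynomials with `P(a) ≠ 0`, `Q(b) ≠ 0`. For every `T` and all large `N` the
linear relation with the coefficients of `P` fails for the consecutive digits of `x` in base `a`, or the one
with the coefficients of `Q` for the digits of `y` in base `b`, in total at least `T log N` times up to `N`.
(3) The digits of `x` in base `a` and in base `b` change in total at least `T log N` times up to `N`, for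
every irrational `x`, in particular for `π` and `e`. -/
theorem result :
    (∀ a b : ℕ, 2 ≤ a → 2 ≤ b → a.Coprime b → ∀ (c e : ℕ → ℤ) (H : ℝ),
      (∀ n, |(c n : ℝ)| ≤ H) → (∀ n, |(e n : ℝ)| ≤ H) → ∀ x y : ℝ,
      HasSum (fun n => (c n : ℝ) / (a : ℝ) ^ n) x → HasSum (fun n => (e n : ℝ) / (b : ℝ) ^ n) y →
      Irrational x → ∀ A B C : ℤ, A ≠ 0 → B ≠ 0 → A * x + B * y = C →
      (∀ M : ℕ, ∃ s0 : ℝ, ∀ s : ℝ, s0 ≤ s →
        nonzero c (s / Real.log a) + nonzero e (s / Real.log b) + M ≤
          nonzero c ((2 * M + 2) * s / Real.log a) + nonzero e ((2 * M + 2) * s / Real.log b)) ∧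
      (∀ T : ℝ, ∃ N0 : ℕ, ∀ N : ℕ, N0 ≤ N →
        T * Real.log N ≤ (nonzero c N : ℝ) + nonzero e N)) ∧
    (∀ a b : ℕ, 2 ≤ a → 2 ≤ b → a.Coprime b → ∀ x y : ℝ, Irrational x →
      ∀ A B C : ℤ, A ≠ 0 → B ≠ 0 → A * x + B * y = C →
      ∀ P Q : Polynomial ℤ, P.eval (a : ℤ) ≠ 0 → Q.eval (b : ℤ) ≠ 0 →
      ∀ T : ℝ, ∃ N0 : ℕ, ∀ N : ℕ, N0 ≤ N →
        T * Real.log N ≤ (failures P a x N : ℝ) + failures Q b y N) ∧
    (∀ a b : ℕ, 2 ≤ a → 2 ≤ b → a.Coprime b → ∀ x : ℝ, Irrational x →
      ∀ T : ℝ, ∃ N0 : ℕ, ∀ N : ℕ, N0 ≤ N →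
        T * Real.log N ≤ (changes a x N : ℝ) + changes b x N) ∧
    (∀ a b : ℕ, 2 ≤ a → 2 ≤ b → a.Coprime b → ∀ T : ℝ, ∃ N0 : ℕ, ∀ N : ℕ, N0 ≤ N →
      T * Real.log N ≤ (changes a Real.pi N : ℝ) + changes b Real.pi N ∧
      T * Real.log N ≤ (changes a (Real.exp 1) N : ℝ) + changes b (Real.exp 1) N) := by
  have h2 : ∀ a b : ℕ, 2 ≤ a → 2 ≤ b → a.Coprime b → ∀ x y : ℝ, Irrational x →
      ∀ A B C : ℤ, A ≠ 0 → B ≠ 0 → A * x + B * y = C →
      ∀ P Q : Polynomial ℤ, P.eval (a : ℤ) ≠ 0 → Q.eval (b : ℤ) ≠ 0 →
      ∀ T : ℝ, ∃ N0 : ℕ, ∀ N : ℕ, N0 ≤ N →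
        T * Real.log N ≤ (failures P a x N : ℝ) + failures Q b y N := by
    intro a b ha hb hab x y hx A B C hA hB hrel P Q hP hQ T
    obtain ⟨N0, h⟩ := superlog (pair_digits ha hb hab hx hA hB hrel P Q hP hQ) T
    refine ⟨N0, fun N hN => ?_⟩
    rw [failures_eq, failures_eq]
    exact h N hN
  have h3 : ∀ a b : ℕ, 2 ≤ a → 2 ≤ b → a.Coprime b → ∀ x : ℝ, Irrational x →
      ∀ T : ℝ, ∃ N0 : ℕ, ∀ N : ℕ, N0 ≤ N →
        T * Real.log N ≤ (changes a x N : ℝ) + changes b x N := by
    intro a b ha hb hab x hx T
    obtain ⟨N0, h⟩ := h2 a b ha hb hab x x hx 1 (-1) 0 one_ne_zero (by norm_num)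
      (by push_cast; ring) (Polynomial.X - 1) (Polynomial.X - 1)
      (by simp only [Polynomial.eval_sub, Polynomial.eval_X, Polynomial.eval_one]; omega)
      (by simp only [Polynomial.eval_sub, Polynomial.eval_X, Polynomial.eval_one]; omega) T
    refine ⟨N0, fun N hN => (h N hN).trans ?_⟩
    have e1 : (failures (Polynomial.X - 1) a x N : ℝ) ≤ changes a x N := by
      exact_mod_cast changes_le x N
    have e2 : (failures (Polynomial.X - 1) b x N : ℝ) ≤ changes b x N := by
      exact_mod_cast changes_le x N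
    linarith
  refine ⟨?_, h2, h3, ?_⟩
  · intro a b ha hb hab c e H hc he x y hx hy hirr A B C hA hB hrel
    have hp : Pair a b c e := ⟨ha, hb, hab, ⟨H, hc, he⟩, x, y, A, B, C, hA, hB, hirr, hx, hy, hrel⟩
    exact ⟨growth hp, superlog hp⟩
  · intro a b ha hb hab T
    obtain ⟨N1, h1⟩ := h3 a b ha hb hab Real.pi irrational_pi T
    obtain ⟨N2, h2⟩ := h3 a b ha hb hab (Real.exp 1) irr_e T
    exact ⟨max N1 N2, fun N hN => ⟨h1 N ((le_max_left _ _).trans hN), h2 N ((le_max_right _ _).trans hN)⟩⟩

end Pool.Agent.Results.MP_e4e684_nt.CoprimeBases
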