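import Mathlib
import Pool.Agent.TH796.Fin.Fin7

set_option autoImplicit false

/-!
# The block complexity of `π` in all but finitely many bases

For all but finitely many bases `b ≥ 2` the number of different blocks of `n` digits of `π` in base `b`
minus `n` tends to infinity; the exceptional bases, if there are any, are the powers `c ^ k` of one
integer `c`, where `k` runs through the divisors of one integer `K`.
-/

namespace Pool.Agent.Results.MP_e4e684_nt.FinitelyManyBases

open Filter

/-- the digit of index `n + 1` after the point in the base `b` expansion of `x` -/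
noncomputable def digit (b : ℕ) (x : ℝ) (n : ℕ) : ℤ := ⌊x * (b : ℝ) ^ (n + 1)⌋ % (b : ℤ)

/-- the number of different blocks of `n` consecutive digits (after the point) of `x` in base `b` -/
noncomputable def blocks (b : ℕ) (x : ℝ) (n : ℕ) : ℕ :=
  (Set.range fun i => fun j : Fin n => digit b x (i + j)).ncard

/-- `x` is algebraic over the ring `ℤ[z]`, equivalently over the field `ℚ(z)` -/
def AlgebraicOver (z x : ℝ) : Prop := IsAlgebraic (Algebra.adjoin ℤ ({z} : Set ℝ)) x

/-- the height of an integer polynomial: the largest absolute value of a coefficient -/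
def height (P : Polynomial ℤ) : ℕ := P.support.sup fun i => (P.coeff i).natAbs

/-- Mahler's U-numbers: for some degree `d` and every exponent `w` there are infinitely many
`P ∈ ℤ[X]` of degree at most `d` with `0 < |P(x)| ≤ (height P) ^ (-w)` -/
def UNumber (x : ℝ) : Prop :=
  ∃ d : ℕ, ∀ w : ℕ, {P : Polynomial ℤ | P.natDegree ≤ d ∧ 0 < |Polynomial.aeval x P| ∧
    |Polynomial.aeval x P| * (height P : ℝ) ^ w ≤ 1}.Infinite

/-- `b` is a base in which the number of different blocks of `n` digits of `x` minus `n` does not tend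
to infinity (it is then bounded, if `x` is irrational) -/
def Exceptional (x : ℝ) (b : ℕ) : Prop :=
  2 ≤ b ∧ ¬ Tendsto (fun n : ℕ => (blocks b x n : ℝ) - n) atTop atTop

/-- `x` has no exceptional bases, or there is an integer `K ≥ 1` such that the exceptional bases are
the numbers `c ^ k`, where `k` is a divisor of `K` -/
def ExceptionalPowers (x : ℝ) (c : ℕ) : Prop :=
  (∀ b : ℕ, ¬ Exceptional x b) ∨
    ∃ K : ℕ, 0 < K ∧ ∀ b : ℕ, Exceptional x b ↔ ∃ k : ℕ, k ∣ K ∧ b = c ^ k

lemma aux {x : ℝ} {c : ℕ} (hc : 2 ≤ c)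
    (h : (∀ b : ℕ, 2 ≤ b → Tendsto (fun n : ℕ => (blocks b x n : ℝ) - n) atTop atTop) ∨
      ∃ K : ℕ, 0 < K ∧ ∀ b : ℕ, 2 ≤ b →
        (¬ Tendsto (fun n : ℕ => (blocks b x n : ℝ) - n) atTop atTop ↔
          ∃ k : ℕ, k ∣ K ∧ b = c ^ k)) : ExceptionalPowers x c := by
  rcases h with h | ⟨K, hK, h⟩
  · exact Or.inl fun b hb => hb.2 (h b hb.1)
  · refine Or.inr ⟨K, hK, fun b => ⟨fun hb => (h b hb.1).1 hb.2, fun hb => ?_⟩⟩
    obtain ⟨k, hk, rfl⟩ := hb
    have hk0 : k ≠ 0 := (Nat.pos_of_dvd_of_pos hk hK).ne'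
    have h2 : 2 ≤ c ^ k := hc.trans (Nat.le_self_pow hk0 c)
    exact ⟨h2, (h _ h2).2 ⟨k, hk, rfl⟩⟩

/-- (1) Let `z` be `π`, `e`, the logarithm of a positive rational number `q ≠ 1` or any transcendental
real number which is not a U-number. There is an integer `c ≥ 2` such that for every irrational
number `x` which is algebraic over `ℚ(z)` (for instance `x = z`) the number of different blocks of `n`
digits of `x` in base `b` minus `n` tends to infinity for all bases `b ≥ 2`, or there is an integer
`K ≥ 1` such that it tends to infinity exactly for the bases `b ≥ 2` which are not of the form `c ^ k`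
with a divisor `k` of `K`. So in each case it tends to infinity for all but finitely many bases.

(2) The same is true for every irrational number `x` which is not a Liouville number, with a `c`
depending on `x`. -/
theorem result :
    (∀ z : ℝ, (z = Real.pi ∨ z = Real.exp 1 ∨ (∃ q : ℚ, 0 < q ∧ q ≠ 1 ∧ z = Real.log q) ∨
        (Transcendental ℚ z ∧ ¬ UNumber z)) →
      ∃ c : ℕ, 2 ≤ c ∧ ∀ x : ℝ, Irrational x → AlgebraicOver z x → ExceptionalPowers x c) ∧
    (∀ x : ℝ, Irrational x → ¬ Liouville x → ∃ c : ℕ, 2 ≤ c ∧ ExceptionalPowers x c) := by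
  refine ⟨fun z hz => ?_, fun x hx hL => ?_⟩
  · have hm : Pool.Agent.TH456.TM.MeasT (z : ℂ) := by
      rcases hz with h | h | h | ⟨h1, h2⟩
      · exact Pool.Agent.TH796.AL.Ai.measT_of (Or.inr (Or.inl h))
      · exact Pool.Agent.TH796.AL.Ai.measT_of (Or.inl h)
      · exact Pool.Agent.TH796.AL.Ai.measT_of (Or.inr (Or.inr h))
      · exact Pool.Agent.TH796.AL.Ai.meas_of_not_unumber h1 h2
    obtain ⟨c, hc, h⟩ := Pool.Agent.TH796.Fin.exceptional_bases
      (Pool.Agent.TH796.AL.Alg.transc_of_measT hm) (Pool.Agent.TH796.AL.Ai.not_unumber hm)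
    exact ⟨c, hc, fun x hx hxz => aux hc (h x hx hxz)⟩
  · obtain ⟨c, hc, h⟩ := Pool.Agent.TH796.Fin.exceptional_bases' hx hL
    exact ⟨c, hc, aux hc h⟩

end Pool.Agent.Results.MP_e4e684_nt.FinitelyManyBases
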